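import Mathlib
import Pool.Agent.P.MP_af8618_al.Defs
import Pool.Agent.P.MP_af8618_al.Main

namespace Pool.Agent.Results.MP_af8618_al.Unbounded

open Pool.Agent.P.MP_af8618_al

/-- For every `m ≥ 2` the retreat depth in `BS(1,m)` with `S = {a, a⁻¹, t, t⁻¹}` is unbounded,
already on dead-ends. -/
theorem result : ∀ m : ℕ, 2 ≤ m → ∀ D : ℕ,
    ∃ g : BS m, IsDeadEnd m g ∧ D < retreatDepth m g := by
  intro m hm D
  have : NeZero m := ⟨by omega⟩
  exact unbounded hm D

end Pool.Agent.Results.MP_af8618_al.Unbounded
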